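import Mathlib
import Pool.Agent.Helper128.WMN.Main

set_option autoImplicit false

namespace Pool.Agent.Results.MP_7a1b54_al.SolubleOrTorsionAbelianization

open Pool.Agent.Helper128.WMN

theorem result (G : Type) [Group G] [Nontrivial G] (hL : LocNil G) (hW : WeakMaxN G) :
    -- (1) soluble case: nontrivial centre, and every nontrivial quotient has nontrivial centre
    (Group.IsSolvable G → Subgroup.center G ≠ ⊥ ∧
      ∀ (N : Subgroup G) (_ : N.Normal), N ≠ ⊤ → Subgroup.center (G ⧸ N) ≠ ⊥) ∧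
    -- (2) the case of a torsion abelianization (in particular periodic or perfect groups)
    ((∀ g : G, ∃ n : ℕ, 0 < n ∧ g ^ n ∈ commutator G) →
      (Subgroup.center G ≠ ⊥ ∧
      (∀ (N : Subgroup G) (_ : N.Normal), N ≠ ⊤ → Subgroup.center (G ⧸ N) ≠ ⊥) ∧
      ∃ R : Subgroup G, R.Normal ∧ R.index ≠ 0 ∧ ∀ a ∈ R, ∀ b ∈ R, a * b = b * a)) ∧
    -- (3) the case where every nontrivial quotient has a nontrivial abelian normal subgroup
    ((∀ (N : Subgroup G) (_ : N.Normal), N ≠ ⊤ → ∃ A : Subgroup (G ⧸ N), A.Normal ∧ A ≠ ⊥ ∧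
      ∀ a ∈ A, ∀ b ∈ A, a * b = b * a) → Subgroup.center G ≠ ⊥) ∧
    -- (4) reduction of the general case
    (Subgroup.center G = ⊥ →
      ∃ (N : Subgroup G) (_ : N.Normal), Nontrivial (G ⧸ N) ∧ LocNil (G ⧸ N) ∧ WeakMaxN (G ⧸ N) ∧
        Subgroup.center (G ⧸ N) = ⊥ ∧
        (∀ A : Subgroup (G ⧸ N), A.Normal → (∀ a ∈ A, ∀ b ∈ A, a * b = b * a) → A = ⊥) ∧
        ∃ h : G ⧸ N, ∀ n : ℕ, 0 < n → h ^ n ∉ commutator (G ⧸ N)) := by
  refine ⟨fun hs => ⟨sol_center G hL hW hs, fun N hN hNt => ?_⟩,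
    fun ht => ⟨B_center G hL hW ht, fun N hN hNt => ?_, B_main G hL hW ht⟩,
    fun h => A_center G hL hW h, fun hZ => reduction G hL hW hZ⟩
  · have h1 : Nontrivial (G ⧸ N) := QuotientGroup.nontrivial_iff.mpr hNt
    exact sol_center (G ⧸ N) (locnil_quot G hL N) (wmn_quot G hW N)
      (Group.isSolvable_of_surjective (QuotientGroup.mk'_surjective N))
  · have h1 : Nontrivial (G ⧸ N) := QuotientGroup.nontrivial_iff.mpr hNt
    exact B_center (G ⧸ N) (locnil_quot G hL N) (wmn_quot G hW N) (tor_quot G ht N)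

end Pool.Agent.Results.MP_7a1b54_al.SolubleOrTorsionAbelianization
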